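import Mathlib

set_option autoImplicit false

namespace Pool.Agent.OrderedMin

open Filter Topology unitInterval

/-- The underlying Banach space: continuous functions on the unit interval times the line, with
the maximum norm. -/
abbrev X0 : Type := C(I, ℝ) × ℝ

/-- The cone: nonnegative functions `g` together with a number between `0` and `g 0`. -/
def P0 : Set X0 := {p | (∀ x, 0 ≤ p.1 x) ∧ 0 ≤ p.2 ∧ p.2 ≤ p.1 0}

/-- The increasing functions `x ↦ min (n x) 1`. -/
def g (n : ℕ) : C(I, ℝ) := ⟨fun x => min ((n : ℝ) * (x : ℝ)) 1, by fun_prop⟩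

lemma g_zero (n : ℕ) : g n 0 = 0 := by simp [g]

lemma g_mono {j k : ℕ} (h : j ≤ k) (x : I) : g j x ≤ g k x := by
  have hx : (0 : ℝ) ≤ (x : ℝ) := x.2.1
  have hjk : (j : ℝ) ≤ (k : ℝ) := by exact_mod_cast h
  exact min_le_min_right _ (mul_le_mul_of_nonneg_right hjk hx)

lemma g_le_one (n : ℕ) (x : I) : g n x ≤ 1 := min_le_right _ _

lemma isClosed_P0 : IsClosed P0 := by
  have h1 : IsClosed {p : X0 | ∀ x, 0 ≤ p.1 x} := by
    rw [Set.ofPred_forall]
    exact isClosed_iInter fun x => isClosed_le continuous_const (by fun_prop)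
  have h2 : IsClosed {p : X0 | 0 ≤ p.2} := isClosed_le continuous_const continuous_snd
  have h3 : IsClosed {p : X0 | p.2 ≤ p.1 0} := isClosed_le continuous_snd (by fun_prop)
  exact h1.inter (h2.inter h3)

/-- An upper bound has first component at least one. -/
lemma one_le_of_upper {w : X0} (hw : ∀ j : ℕ, w - (g j, (0 : ℝ)) ∈ P0) (x : I) : 1 ≤ w.1 x := by
  have hpos : ∀ x : I, (0 : ℝ) < (x : ℝ) → 1 ≤ w.1 x := by
    intro x hx
    obtain ⟨n, hn⟩ := exists_nat_gt (1 / (x : ℝ))
    have h1 := (hw n).1 x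
    have h2 : g n x = 1 := by
      simp only [g, ContinuousMap.coe_mk]
      apply min_eq_right
      rw [div_lt_iff₀ hx] at hn
      exact hn.le
    simp only [Prod.fst_sub, ContinuousMap.sub_apply, h2] at h1
    linarith
  by_cases hx : (0 : ℝ) < (x : ℝ)
  · exact hpos x hx
  · have hx0 : x = 0 := by
      apply Subtype.ext
      exact le_antisymm (not_lt.mp hx) x.2.1
    subst hx0
    have hlim : Tendsto (fun n : ℕ => w.1 ⟨1 / ((n : ℝ) + 1), by
        constructor
        · positivity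
        · rw [div_le_one (by positivity)]
          have : (0 : ℝ) ≤ (n : ℝ) := Nat.cast_nonneg n
          linarith⟩) atTop (𝓝 (w.1 0)) := by
      apply (w.1.continuous.tendsto 0).comp
      rw [tendsto_subtype_rng]
      exact tendsto_one_div_add_atTop_nhds_zero_nat
    refine ge_of_tendsto hlim (Eventually.of_forall fun n => hpos _ ?_)
    show (0 : ℝ) < 1 / ((n : ℝ) + 1)
    positivity

/-- There are a real Banach space `X`, a closed cone `P` in `X` which is normal (with constant `1`)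
and has nonempty interior, and an increasing sequence in `X` which has a minimal upper bound but no
smallest upper bound, for the order `x ≤ y ↔ y - x ∈ P`. -/
theorem main :
    ∃ (X : Type) (_ : NormedAddCommGroup X) (_ : NormedSpace ℝ X) (_ : CompleteSpace X)
      (P : Set X),
      IsClosed P ∧ (∀ x ∈ P, ∀ y ∈ P, x + y ∈ P) ∧
      (∀ c : ℝ, 0 ≤ c → ∀ x ∈ P, c • x ∈ P) ∧ (∀ x ∈ P, -x ∈ P → x = 0) ∧
      (∀ x y : X, x ∈ P → y - x ∈ P → ‖x‖ ≤ ‖y‖) ∧ (interior P).Nonempty ∧
      ∃ f : ℕ → X, (∀ j k, j ≤ k → f k - f j ∈ P) ∧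
        (∃ u : X, (∀ j, u - f j ∈ P) ∧
          ∀ v : X, (∀ j, v - f j ∈ P) → u - v ∈ P → v = u) ∧
        ¬ ∃ s : X, (∀ j, s - f j ∈ P) ∧ ∀ v : X, (∀ j, v - f j ∈ P) → v - s ∈ P := by
  refine ⟨X0, inferInstance, inferInstance, inferInstance, P0, isClosed_P0, ?_, ?_, ?_, ?_, ?_,
    fun n => (g n, 0), ?_, ?_, ?_⟩
  · rintro ⟨p, s⟩ ⟨h1, h2, h3⟩ ⟨q, t⟩ ⟨k1, k2, k3⟩
    exact ⟨fun x => add_nonneg (h1 x) (k1 x), add_nonneg h2 k2, add_le_add h3 k3⟩
  · rintro c hc ⟨p, s⟩ ⟨h1, h2, h3⟩
    exact ⟨fun x => mul_nonneg hc (h1 x), mul_nonneg hc h2, mul_le_mul_of_nonneg_left h3 hc⟩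
  · rintro ⟨p, s⟩ ⟨h1, h2, h3⟩ ⟨k1, k2, k3⟩
    simp only [Prod.fst_neg, Prod.snd_neg, ContinuousMap.neg_apply] at *
    ext x
    · simp only [Prod.fst_zero, ContinuousMap.zero_apply]
      have := h1 x
      have := k1 x
      linarith
    · simp only [Prod.snd_zero]
      linarith
  · rintro ⟨p, s⟩ ⟨q, t⟩ ⟨h1, h2, h3⟩ ⟨k1, k2, k3⟩
    simp only [Prod.fst_sub, Prod.snd_sub, ContinuousMap.sub_apply] at *
    rw [Prod.norm_def, Prod.norm_def]
    simp only
    apply max_le_max
    · rw [ContinuousMap.norm_le _ (norm_nonneg _)]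
      intro x
      rw [Real.norm_of_nonneg (h1 x)]
      have e1 := k1 x
      calc p x ≤ q x := by linarith
        _ ≤ ‖q x‖ := Real.le_norm_self _
        _ ≤ ‖q‖ := q.norm_coe_le_norm x
    · rw [Real.norm_of_nonneg h2]
      exact (by linarith : s ≤ t).trans (Real.le_norm_self _)
  · refine ⟨((ContinuousMap.const I (2 : ℝ)), (1 : ℝ)), ?_⟩
    rw [mem_interior_iff_mem_nhds, Metric.mem_nhds_iff]
    refine ⟨1 / 2, by norm_num, ?_⟩
    rintro ⟨p, s⟩ hp
    rw [Metric.mem_ball, Prod.dist_eq, max_lt_iff] at hp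
    obtain ⟨hp1, hp2⟩ := hp
    simp only at hp1 hp2
    rw [Real.dist_eq, abs_lt] at hp2
    have hx : ∀ x, |p x - 2| < 1 / 2 := by
      intro x
      have := (ContinuousMap.dist_apply_le_dist (f := p) (g := ContinuousMap.const I (2 : ℝ)) x)
      rw [Real.dist_eq] at this
      exact this.trans_lt hp1
    refine ⟨fun x => ?_, ?_, ?_⟩
    · have := abs_lt.mp (hx x)
      simp only
      linarith [this.1]
    · simp only
      linarith [hp2.1]
    · simp only
      have := abs_lt.mp (hx 0)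
      linarith [this.1, hp2.2]
  · intro j k hjk
    refine ⟨fun x => ?_, ?_, ?_⟩
    · simpa using g_mono hjk x
    · simp
    · simp [g_zero]
  · refine ⟨(ContinuousMap.const I (1 : ℝ), 1), ?_, ?_⟩
    · intro j
      refine ⟨fun x => ?_, ?_, ?_⟩
      · simpa using g_le_one j x
      · simp
      · simp [g_zero]
    · rintro ⟨p, s⟩ hw ⟨k1, k2, k3⟩
      have h1 := one_le_of_upper hw
      simp only [Prod.fst_sub, Prod.snd_sub, ContinuousMap.sub_apply,
        ContinuousMap.const_apply] at *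
      ext x
      · have := h1 x
        have := k1 x
        simp only [ContinuousMap.const_apply]
        linarith
      · have := h1 0
        simp only
        linarith
  · rintro ⟨w, hw, hleast⟩
    have hu : ∀ j : ℕ, ((ContinuousMap.const I (1 : ℝ), (1 : ℝ)) : X0) - (g j, (0 : ℝ)) ∈ P0 := by
      intro j
      refine ⟨fun x => ?_, ?_, ?_⟩
      · simpa using g_le_one j x
      · simp
      · simp [g_zero]
    have hv : ∀ j : ℕ, ((ContinuousMap.const I (1 : ℝ), (0 : ℝ)) : X0) - (g j, (0 : ℝ)) ∈ P0 := by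
      intro j
      refine ⟨fun x => ?_, ?_, ?_⟩
      · simpa using g_le_one j x
      · simp
      · simp [g_zero]
    obtain ⟨a1, a2, a3⟩ := hleast _ hu
    obtain ⟨b1, b2, b3⟩ := hleast _ hv
    have h1 := one_le_of_upper hw 0
    simp only [Prod.fst_sub, Prod.snd_sub, ContinuousMap.sub_apply,
        ContinuousMap.const_apply] at *
    have := a1 0
    linarith

end Pool.Agent.OrderedMin
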